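import Mathlib
import Pool.Agent.BasisConst.Good
import Pool.Agent.BasisConst2.SpaceK

/-!
# Bases with constants close to one
-/

set_option autoImplicit false

open Filter Topology ZeroAtInfty

namespace Pool.Agent.BasisConst2

open BasisConst (T w w_pos hasSum_w sum_w T_pos bseq bseq_far bseq_sum bseq_lt bseq_self bseq_mid
  b_tail T_ratio)

variable {𝕜 : Type} [RCLike 𝕜]

variable (𝕜) in
/-- The `n`-th basis vector. -/
noncomputable def b (N n : ℕ) : E 𝕜 :=
  mkE 𝕜 (bseq N n) (max N (n + 1) + 1) (fun _ hi => bseq_far (by omega)) (bseq_sum N n)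

@[simp] lemma co_b (N n i : ℕ) : co (b 𝕜 N n) i = ((bseq N n i : ℝ) : 𝕜) := rfl

/-- Partial sums. -/
noncomputable def S (N : ℕ) (a : ℕ → 𝕜) (n : ℕ) : E 𝕜 := ∑ i ∈ Finset.range n, a i • b 𝕜 N i

lemma co_S (N : ℕ) (a : ℕ → 𝕜) (n i : ℕ) :
    co (S N a n) i = ∑ j ∈ Finset.range n, a j * ((bseq N j i : ℝ) : 𝕜) := by
  rw [S, co_sum]
  rfl

lemma S_tail (N : ℕ) (a : ℕ → 𝕜) {m i : ℕ} (hmi : m ≤ i) :
    co (S N a m) i = if i ≤ max N m then co (S N a m) m else 0 := by
  rw [co_S, co_S]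
  split_ifs with h
  · apply Finset.sum_congr rfl
    intro j hj
    rw [b_tail (Finset.mem_range.mp hj) hmi, if_pos h]
  · apply Finset.sum_eq_zero
    intro j hj
    rw [b_tail (Finset.mem_range.mp hj) hmi, if_neg h, RCLike.ofReal_zero, mul_zero]

lemma S_stable (N : ℕ) (a : ℕ → 𝕜) {m n i : ℕ} (hmn : m ≤ n) (him : i < m) :
    co (S N a n) i = co (S N a m) i := by
  rw [co_S, co_S]
  obtain ⟨k, rfl⟩ : ∃ k, n = m + k := ⟨n - m, by omega⟩
  rw [Finset.sum_range_add]
  have : ∑ x ∈ Finset.range k, a (m + x) * ((bseq N (m + x) i : ℝ) : 𝕜) = 0 := by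
    apply Finset.sum_eq_zero
    intro x _
    rw [bseq_lt (by omega), RCLike.ofReal_zero, mul_zero]
  rw [this, add_zero]

/-- Key estimate on the constant tail value. -/
lemma tail_value {N : ℕ} {ε : ℝ} (hε1 : ε < 1)
    (hN : ∀ n, T (max N n + 1) ≤ ε * T n) (x y : E 𝕜) (m : ℕ) (c : ℝ)
    (h1 : ∀ i, i < m → co y i = co x i)
    (h2 : ∀ i, m ≤ i → co y i = if i ≤ max N m then co y m else 0)
    (hc : ∀ i, m ≤ i → ‖co x i‖ ≤ c) :
    ‖co y m‖ ≤ (1 / (1 - ε)) * c := by
  have hx := relation x m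
  have hy := relation y m
  have hs : ∑ i ∈ Finset.range m, ((w i : ℝ) : 𝕜) * co y i =
      ∑ i ∈ Finset.range m, ((w i : ℝ) : 𝕜) * co x i := by
    apply Finset.sum_congr rfl
    intro i hi
    rw [h1 i (Finset.mem_range.mp hi)]
  have hty : ∑' i, ((w (i + m) : ℝ) : 𝕜) * co y (i + m) =
      ((T m - T (max N m + 1) : ℝ) : 𝕜) * co y m := by
    set L := max N m with hL
    have hmL : m ≤ L := le_max_right _ _
    obtain ⟨k, hk⟩ : ∃ k, L + 1 = m + k := ⟨L + 1 - m, by omega⟩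
    rw [tsum_eq_sum (s := Finset.range k)]
    · rw [hk, ← sum_w]
      push_cast
      rw [Finset.sum_mul]
      apply Finset.sum_congr rfl
      intro i hi
      have := Finset.mem_range.mp hi
      rw [h2 _ (by omega), if_pos (by omega)]
    · intro i hi
      simp only [Finset.mem_range, not_lt] at hi
      rw [h2 _ (by omega), if_neg (by omega), mul_zero]
  have htx := norm_tail_le (co x) m c hc
  rw [hty, hs] at hy
  have key : ((T m - T (max N m + 1) : ℝ) : 𝕜) * co y m =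
      ∑' i, ((w (i + m) : ℝ) : 𝕜) * co x (i + m) := by
    have := hx.trans hy.symm
    exact (add_left_cancel this).symm
  have hTm := T_pos m
  have hN' := hN m
  have hd : (1 - ε) * T m ≤ T m - T (max N m + 1) := by linarith
  have h1ε : 0 < 1 - ε := by linarith
  have hd0 : 0 < T m - T (max N m + 1) := lt_of_lt_of_le (by positivity) hd
  have : (T m - T (max N m + 1)) * ‖co y m‖ ≤ T m * c := by
    have e : (T m - T (max N m + 1)) * ‖co y m‖ =
        ‖((T m - T (max N m + 1) : ℝ) : 𝕜) * co y m‖ := by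
      rw [norm_mul, RCLike.norm_ofReal, abs_of_pos hd0]
    rw [e, key]
    exact htx
  have h3 : (1 - ε) * T m * ‖co y m‖ ≤ T m * c :=
    le_trans (mul_le_mul_of_nonneg_right hd (norm_nonneg _)) this
  have h4 : (1 - ε) * ‖co y m‖ ≤ c := by
    have : T m * ((1 - ε) * ‖co y m‖) ≤ T m * c := by linarith
    exact le_of_mul_le_mul_left this hTm
  rw [one_div, ← div_eq_inv_mul, le_div_iff₀ h1ε]
  linarith

lemma S_mono {N : ℕ} {ε : ℝ} (hε0 : 0 < ε) (hε1 : ε < 1)
    (hN : ∀ n, T (max N n + 1) ≤ ε * T n) (a : ℕ → 𝕜) {m n : ℕ} (hmn : m ≤ n) :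
    ‖S N a m‖ ≤ (1 / (1 - ε)) * ‖S N a n‖ := by
  have h1ε : 0 < 1 - ε := by linarith
  have hK : 1 ≤ 1 / (1 - ε) := by
    rw [le_div_iff₀ h1ε]; linarith
  have htail := tail_value hε1 hN (S N a n) (S N a m) m ‖S N a n‖
    (fun i hi => (S_stable N a hmn hi).symm) (fun i hi => S_tail N a hi)
    (fun i _ => norm_co_le _ i)
  apply norm_le_of_co _ (by positivity)
  intro i
  rcases Nat.lt_or_ge i m with h | h
  · rw [← S_stable N a hmn h]
    have := norm_co_le (S N a n) i
    have h0 := norm_nonneg (S N a n)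
    nlinarith
  · rw [S_tail N a h]
    split_ifs
    · exact htail
    · simp only [norm_zero]; positivity

/-- Coefficients of the expansion of `x`, through the partial sums. -/
noncomputable def Srec (N : ℕ) (x : E 𝕜) : ℕ → E 𝕜
  | 0 => 0
  | n + 1 => Srec N x n + (co x n - co (Srec N x n) n) • b 𝕜 N n

/-- The coefficients. -/
noncomputable def coef (N : ℕ) (x : E 𝕜) (n : ℕ) : 𝕜 := co x n - co (Srec N x n) n

lemma S_coef (N : ℕ) (x : E 𝕜) (n : ℕ) : S N (coef N x) n = Srec N x n := by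
  induction n with
  | zero => simp [S, Srec]
  | succ n ih =>
    rw [S, Finset.sum_range_succ, ← S, ih]
    rfl

lemma Srec_co (N : ℕ) (x : E 𝕜) (n i : ℕ) (h : i < n) : co (Srec N x n) i = co x i := by
  induction n with
  | zero => omega
  | succ n ih =>
    rw [Srec, co_add, co_smul, co_b]
    rcases Nat.lt_succ_iff_lt_or_eq.mp h with h' | rfl
    · rw [ih h', bseq_lt h', RCLike.ofReal_zero, mul_zero, add_zero]
    · rw [bseq_self, RCLike.ofReal_one]; ring

lemma S_tendsto {N : ℕ} {ε : ℝ} (hε0 : 0 < ε) (hε1 : ε < 1)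
    (hN : ∀ n, T (max N n + 1) ≤ ε * T n) (x : E 𝕜) :
    Tendsto (fun n => S N (coef N x) n) atTop (𝓝 x) := by
  have h1ε : 0 < 1 - ε := by linarith
  rw [Metric.tendsto_atTop]
  intro δ hδ
  have hx := co_tendsto x
  rw [Metric.tendsto_atTop] at hx
  set K := 1 / (1 - ε) with hKdef
  have hK : 0 < K := by positivity
  obtain ⟨M, hM⟩ := hx (δ / (2 * (K + 1))) (by positivity)
  refine ⟨M, fun n hn => ?_⟩
  set c := δ / (2 * (K + 1)) with hc
  have hc0 : 0 < c := by positivity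
  have hxc : ∀ i, n ≤ i → ‖co x i‖ ≤ c := by
    intro i hi
    have := hM i (by omega)
    rw [dist_zero_right] at this
    exact this.le
  have h1 : ∀ i, i < n → co (S N (coef N x) n) i = co x i := by
    intro i hi
    rw [S_coef, Srec_co N x n i hi]
  have htail := tail_value hε1 hN x (S N (coef N x) n) n c h1 (fun i hi => S_tail N _ hi) hxc
  rw [dist_eq_norm]
  have : ‖S N (coef N x) n - x‖ ≤ (K + 1) * c := by
    apply norm_le_of_co _ (by positivity)
    intro i
    rw [co_sub]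
    rcases Nat.lt_or_ge i n with h | h
    · rw [h1 i h, sub_self, norm_zero]; positivity
    · rw [S_tail N _ h]
      split_ifs
      · calc ‖co (S N (coef N x) n) n - co x i‖ ≤ ‖co (S N (coef N x) n) n‖ + ‖co x i‖ :=
              norm_sub_le _ _
          _ ≤ K * c + c := add_le_add htail (hxc i h)
          _ = (K + 1) * c := by ring
      · rw [zero_sub, norm_neg]
        calc ‖co x i‖ ≤ c := hxc i h
          _ ≤ (K + 1) * c := by nlinarith
  calc ‖S N (coef N x) n - x‖ ≤ (K + 1) * c := this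
    _ = δ / 2 := by rw [hc]; field_simp
    _ < δ := by linarith

variable (𝕜) in
/-- For every `ε ∈ (0,1)` the space `E` has a basis with constant at most `1/(1-ε)`. -/
theorem good_basis (ε : ℝ) (hε0 : 0 < ε) (hε1 : ε < 1) :
    ∃ f : ℕ → E 𝕜,
      (∀ x : E 𝕜, ∃ b : ℕ → 𝕜,
        Tendsto (fun k : ℕ => ∑ i ∈ Finset.range k, b i • f i) atTop (𝓝 x)) ∧
      (∀ i, f i ≠ 0) ∧
      ∀ (b : ℕ → 𝕜) (p q : ℕ), p ≤ q →
        ‖∑ i ∈ Finset.range p, b i • f i‖ ≤
          (1 / (1 - ε)) * ‖∑ i ∈ Finset.range q, b i • f i‖ := by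
  obtain ⟨N, hN⟩ := T_ratio ε hε0
  refine ⟨b 𝕜 N, fun x => ⟨coef N x, S_tendsto hε0 hε1 hN x⟩, ?_,
    fun a p q hpq => S_mono hε0 hε1 hN a hpq⟩
  intro i hi
  have h : co (b 𝕜 N i) i = 0 := by rw [hi]; rfl
  rw [co_b, bseq_self, RCLike.ofReal_one] at h
  exact one_ne_zero h

end Pool.Agent.BasisConst2
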