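import Mathlib
import Pool.Agent.BasisConst.NoMono
import Pool.Agent.BasisConst2.SpaceK

/-!
# No monotone bases

`X` is a normed space whose norm is the maximum of a seminorm `ν` and of the norm of the
component `P x ∈ E`.
-/

set_option autoImplicit false

open Filter Topology ZeroAtInfty

namespace Pool.Agent.BasisConst2

open BasisConst (T w w_pos hasSum_w sum_w T_pos T_three w_zero w_one w_two cseq cseq_sum useq
  useq_sum)

variable {𝕜 : Type} [RCLike 𝕜]

/-- `‖x‖ = max (ν x) ‖P x‖`, and `ι : E → X` is a section with `ν = 0`. -/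
structure Comp (𝕜 : Type) [RCLike 𝕜] (X : Type) [NormedAddCommGroup X] [NormedSpace 𝕜 X]
    (P : X →ₗ[𝕜] E 𝕜) (ι : E 𝕜 →ₗ[𝕜] X) (ν : X → ℝ) : Prop where
  P_le : ∀ x, ‖P x‖ ≤ ‖x‖
  ν_add : ∀ x u, ν (x + u) ≤ ‖x‖ + ν u
  le : ∀ x C, 0 ≤ C → ν x ≤ C → ‖P x‖ ≤ C → ‖x‖ ≤ C
  Pι : ∀ v, P (ι v) = v
  νι : ∀ v, ν (ι v) ≤ 0

variable {X : Type} [NormedAddCommGroup X] [NormedSpace 𝕜 X] {e : ℕ → X}

/-- Monotone basic inequality. -/
def Mono (𝕜 : Type) [RCLike 𝕜] {X : Type} [NormedAddCommGroup X] [NormedSpace 𝕜 X]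
    (e : ℕ → X) : Prop := ∀ (a : ℕ → 𝕜) (m n : ℕ), m ≤ n →
  ‖∑ i ∈ Finset.range m, a i • e i‖ ≤ ‖∑ i ∈ Finset.range n, a i • e i‖

lemma coef_bound (hm : Mono 𝕜 e) (a : ℕ → 𝕜) {j n : ℕ} (hj : j < n) :
    ‖a j‖ * ‖e j‖ ≤ 2 * ‖∑ i ∈ Finset.range n, a i • e i‖ := by
  have h1 := hm a (j + 1) n hj
  have h2 := hm a j n hj.le
  have h3 : a j • e j = ∑ i ∈ Finset.range (j + 1), a i • e i - ∑ i ∈ Finset.range j, a i • e i := by
    rw [Finset.sum_range_succ]; abel
  calc ‖a j‖ * ‖e j‖ = ‖a j • e j‖ := by rw [norm_smul]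
    _ ≤ ‖∑ i ∈ Finset.range (j + 1), a i • e i‖ + ‖∑ i ∈ Finset.range j, a i • e i‖ := by
        rw [h3]; exact norm_sub_le _ _
    _ ≤ _ := by linarith

lemma exists_tail {P : X →ₗ[𝕜] E 𝕜} (hm : Mono 𝕜 e) (hne : ∀ j, e j ≠ 0) (n : ℕ) :
    ∃ N, ∀ (a : ℕ → 𝕜) (i : ℕ), N ≤ i →
      ‖co (P (∑ j ∈ Finset.range n, a j • e j)) i‖ ≤
        ‖∑ j ∈ Finset.range n, a j • e j‖ / 2 := by
  have h1 : Tendsto (fun i => ∑ j ∈ Finset.range n, (2 / ‖e j‖) * ‖co (P (e j)) i‖) atTop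
      (𝓝 (∑ j ∈ Finset.range n, (2 / ‖e j‖) * ‖(0 : 𝕜)‖)) := by
    apply tendsto_finsetSum
    intro j _
    exact ((co_tendsto (P (e j))).norm).const_mul _
  simp only [norm_zero, mul_zero, Finset.sum_const_zero] at h1
  rw [Metric.tendsto_atTop] at h1
  obtain ⟨N, hN⟩ := h1 (1 / 2) (by norm_num)
  refine ⟨N, fun a i hi => ?_⟩
  have h2 := hN i hi
  rw [Real.dist_eq, sub_zero] at h2
  have h3 := (abs_lt.mp h2).2
  set y := ∑ j ∈ Finset.range n, a j • e j with hy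
  rw [hy, map_sum, co_sum]
  calc ‖∑ j ∈ Finset.range n, co (P (a j • e j)) i‖ ≤
        ∑ j ∈ Finset.range n, ‖co (P (a j • e j)) i‖ := norm_sum_le _ _
    _ ≤ ∑ j ∈ Finset.range n, ‖y‖ * ((2 / ‖e j‖) * ‖co (P (e j)) i‖) := by
        apply Finset.sum_le_sum
        intro j hj
        rw [map_smul, co_smul, norm_mul, ← mul_assoc]
        apply mul_le_mul_of_nonneg_right _ (norm_nonneg _)
        have hb := coef_bound hm a (Finset.mem_range.mp hj)
        have hpos : 0 < ‖e j‖ := norm_pos_iff.mpr (hne j)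
        rw [mul_div_assoc', le_div_iff₀ hpos]
        linarith
    _ = ‖y‖ * ∑ j ∈ Finset.range n, (2 / ‖e j‖) * ‖co (P (e j)) i‖ := by rw [Finset.mul_sum]
    _ ≤ ‖y‖ * (1 / 2) := mul_le_mul_of_nonneg_left h3.le (norm_nonneg _)
    _ = ‖y‖ / 2 := by ring

lemma proj_scaled (hm : Mono 𝕜 e) (a : ℕ → 𝕜) (u : X)
    (hu : Tendsto (fun k : ℕ => ∑ i ∈ Finset.range k, a i • e i) atTop (𝓝 u)) (n : ℕ) (s : ℝ)
    (hs : 0 ≤ s) :
    (s + 1) * ‖∑ i ∈ Finset.range n, a i • e i‖ ≤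
      ‖((s : ℝ) : 𝕜) • (∑ i ∈ Finset.range n, a i • e i) + u‖ := by
  set y := ∑ i ∈ Finset.range n, a i • e i with hy
  set c : ℕ → 𝕜 := fun j => if j < n then (((s : ℝ) : 𝕜) + 1) * a j else a j with hc
  have h1 : ∀ k, n ≤ k → ∑ i ∈ Finset.range k, c i • e i =
      ((s : ℝ) : 𝕜) • y + ∑ i ∈ Finset.range k, a i • e i := by
    intro k hk
    obtain ⟨l, rfl⟩ : ∃ l, k = n + l := ⟨k - n, by omega⟩
    rw [Finset.sum_range_add, Finset.sum_range_add, ← add_assoc]
    congr 1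
    · rw [← hy, hy, Finset.smul_sum, ← Finset.sum_add_distrib]
      apply Finset.sum_congr rfl
      intro i hi
      simp only [hc, if_pos (Finset.mem_range.mp hi)]
      rw [add_mul, one_mul, add_smul, mul_smul]
    · apply Finset.sum_congr rfl
      intro i _
      simp only [hc, if_neg (by omega : ¬ (n + i < n))]
  have h2 : ∑ i ∈ Finset.range n, c i • e i = (((s : ℝ) : 𝕜) + 1) • y := by
    rw [h1 n le_rfl, ← hy, add_smul, one_smul]
  have h3 : Tendsto (fun k : ℕ => ‖∑ i ∈ Finset.range k, c i • e i‖) atTop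
      (𝓝 ‖((s : ℝ) : 𝕜) • y + u‖) := by
    refine Tendsto.congr' ?_ ((hu.const_add (((s : ℝ) : 𝕜) • y)).norm)
    filter_upwards [eventually_ge_atTop n] with k hk
    rw [h1 k hk]
  have h4 : ‖(((s : ℝ) : 𝕜) + 1) • y‖ ≤ ‖((s : ℝ) : 𝕜) • y + u‖ := by
    refine ge_of_tendsto h3 ?_
    filter_upwards [eventually_ge_atTop n] with k hk
    rw [← h2]
    exact hm c n k hk
  have h5 : ‖((s : ℝ) : 𝕜) + 1‖ = s + 1 := by
    rw [← RCLike.ofReal_one (K := 𝕜), ← RCLike.ofReal_add, RCLike.norm_ofReal,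
      abs_of_nonneg (by linarith)]
  rw [norm_smul, h5] at h4
  exact h4

/-- The partial-sum projections only see `ν` and finitely many coordinates. -/
lemma key_bound {P : X →ₗ[𝕜] E 𝕜} {ι : E 𝕜 →ₗ[𝕜] X} {ν : X → ℝ} (hC : Comp 𝕜 X P ι ν)
    (hm : Mono 𝕜 e) (hne : ∀ j, e j ≠ 0) (n : ℕ) :
    ∃ N, ∀ (a : ℕ → 𝕜) (u : X) (r : ℝ), 0 ≤ r →
      Tendsto (fun k : ℕ => ∑ i ∈ Finset.range k, a i • e i) atTop (𝓝 u) → ν u ≤ r →
      (∀ i, i < N → ‖co (P u) i‖ ≤ r) → ‖∑ i ∈ Finset.range n, a i • e i‖ ≤ r := by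
  obtain ⟨N, hN⟩ := exists_tail (P := P) hm hne n
  refine ⟨N, fun a u r hr hu hν hur => ?_⟩
  set y := ∑ i ∈ Finset.range n, a i • e i with hy
  rcases (norm_nonneg y).eq_or_lt with h0 | h0
  · rw [← h0]; exact hr
  set s := 2 * ‖u‖ / ‖y‖ with hs
  have hs0 : 0 ≤ s := by positivity
  have hsn : ‖((s : ℝ) : 𝕜)‖ = s := by rw [RCLike.norm_ofReal, abs_of_nonneg hs0]
  have h1 := proj_scaled hm a u hu n s hs0
  rw [← hy] at h1
  have h2 : ‖((s : ℝ) : 𝕜) • y + u‖ ≤ s * ‖y‖ + r := by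
    apply hC.le _ _ (by positivity)
    · have := hC.ν_add (((s : ℝ) : 𝕜) • y) u
      rw [norm_smul, hsn] at this
      linarith
    · apply norm_le_of_co _ (by positivity)
      intro i
      rw [map_add, map_smul, co_add, co_smul]
      rcases Nat.lt_or_ge i N with h | h
      · calc ‖((s : ℝ) : 𝕜) * co (P y) i + co (P u) i‖ ≤
              ‖((s : ℝ) : 𝕜) * co (P y) i‖ + ‖co (P u) i‖ := norm_add_le _ _
          _ ≤ s * ‖y‖ + r := by
            rw [norm_mul, hsn]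
            exact add_le_add (mul_le_mul_of_nonneg_left
              ((norm_co_le (P y) i).trans (hC.P_le y)) hs0) (hur i h)
      · have h3 := hN a i h
        rw [← hy] at h3
        have h4 : ‖u‖ = s * (‖y‖ / 2) := by
          rw [hs]; field_simp
        calc ‖((s : ℝ) : 𝕜) * co (P y) i + co (P u) i‖ ≤
              ‖((s : ℝ) : 𝕜) * co (P y) i‖ + ‖co (P u) i‖ := norm_add_le _ _
          _ ≤ s * (‖y‖ / 2) + ‖u‖ := by
            rw [norm_mul, hsn]
            exact add_le_add (mul_le_mul_of_nonneg_left h3 hs0)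
              ((norm_co_le (P u) i).trans (hC.P_le u))
          _ = s * ‖y‖ := by rw [h4]; ring
          _ ≤ s * ‖y‖ + r := by linarith
  nlinarith

variable (𝕜) in
/-- Test vector as an element of `E`. -/
noncomputable def cvec (k : ℕ) (hk : k < 3) : E 𝕜 :=
  mkE 𝕜 (cseq k) 3 (fun i hi => by simp [cseq, Nat.not_lt.mpr hi]) (cseq_sum k hk)

variable (𝕜) in
/-- The corrected point as an element of `E`. -/
noncomputable def uvec (M : ℕ) (hM : 3 ≤ M) : E 𝕜 :=
  mkE 𝕜 (useq M) (M + 1) (fun i hi => by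
    rw [useq, if_neg (by omega), if_neg (by omega)]) (useq_sum M hM)

/-- `X` has no monotone basis. -/
theorem no_monotone_basis {P : X →ₗ[𝕜] E 𝕜} {ι : E 𝕜 →ₗ[𝕜] X} {ν : X → ℝ}
    (hC : Comp 𝕜 X P ι ν)
    (hb : ∀ x : X, ∃! a : ℕ → 𝕜,
      Tendsto (fun n : ℕ => ∑ i ∈ Finset.range n, a i • e i) atTop (𝓝 x)) (hm : Mono 𝕜 e) :
    False := by
  classical
  -- basis vectors are nonzero
  have hne : ∀ j, e j ≠ 0 := by
    intro j hj
    obtain ⟨a, ha, hau⟩ := hb 0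
    have h1 := hau (fun _ => 0) (by simp)
    have h2 := hau (fun i => if i = j then 1 else 0) (by
      have : ∀ n : ℕ, ∑ i ∈ Finset.range n, (if i = j then (1 : 𝕜) else 0) • e i = 0 := by
        intro n
        apply Finset.sum_eq_zero
        intro i _
        split_ifs with h
        · rw [h, hj, smul_zero]
        · rw [zero_smul]
      simp only [this]
      exact tendsto_const_nhds)
    have h3 := congrFun (h1.trans h2.symm) j
    simp at h3
  -- expansions of the test vectors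
  choose A hA using fun x => (hb x).exists
  -- choose n
  have hconv : ∀ k (hk : k < 3), ∃ n0, ∀ n, n0 ≤ n →
      ‖∑ i ∈ Finset.range n, A (ι (cvec 𝕜 k hk)) i • e i - ι (cvec 𝕜 k hk)‖ ≤ 1 / 10 := by
    intro k hk
    have := hA (ι (cvec 𝕜 k hk))
    rw [Metric.tendsto_atTop] at this
    obtain ⟨n0, hn0⟩ := this (1 / 10) (by norm_num)
    refine ⟨n0, fun n hn => ?_⟩
    have := hn0 n hn
    rw [dist_eq_norm] at this
    exact this.le
  obtain ⟨n0, hn0⟩ := hconv 0 (by norm_num)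
  obtain ⟨n1, hn1⟩ := hconv 1 (by norm_num)
  obtain ⟨n2, hn2⟩ := hconv 2 (by norm_num)
  set n := max n0 (max n1 n2) with hn
  obtain ⟨N, hN⟩ := key_bound hC hm hne n
  have hM3 : 3 ≤ max N 3 := le_max_right _ _
  set u : E 𝕜 := uvec 𝕜 (max N 3) hM3 with hu
  set p : X := ∑ i ∈ Finset.range n, A (ι u) i • e i with hp
  -- distance of p to the partial sums of the test vectors
  have hdist : ∀ k (hk : k < 3),
      ‖p - ∑ i ∈ Finset.range n, A (ι (cvec 𝕜 k hk)) i • e i‖ ≤ 1 := by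
    intro k hk
    have h1 : p - ∑ i ∈ Finset.range n, A (ι (cvec 𝕜 k hk)) i • e i
        = ∑ i ∈ Finset.range n, (A (ι u) i - A (ι (cvec 𝕜 k hk)) i) • e i := by
      rw [hp, ← Finset.sum_sub_distrib]
      apply Finset.sum_congr rfl
      intro i _
      rw [sub_smul]
    rw [h1]
    refine hN (fun i => A (ι u) i - A (ι (cvec 𝕜 k hk)) i) (ι (u - cvec 𝕜 k hk)) 1
      zero_le_one ?_ ((hC.νι _).trans zero_le_one) ?_
    · rw [map_sub]
      refine ((hA (ι u)).sub (hA (ι (cvec 𝕜 k hk)))).congr fun m => ?_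
      rw [← Finset.sum_sub_distrib]
      apply Finset.sum_congr rfl
      intro i _
      rw [sub_smul]
    · intro i hi
      rw [hC.Pι, co_sub, hu, uvec, co_mkE, cvec, co_mkE, ← RCLike.ofReal_sub,
        RCLike.norm_ofReal, useq, cseq]
      rcases Nat.lt_or_ge i 3 with h | h
      · rw [if_pos h, if_pos h]
        split_ifs
        · norm_num
        · norm_num
      · rw [if_neg (by omega), if_neg (by omega), if_neg]
        · norm_num
        · have : N ≤ max N 3 := le_max_left _ _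
          omega
  -- coordinates of p
  have hco : ∀ k (hk : k < 3) (i : ℕ),
      ‖∑ i ∈ Finset.range n, A (ι (cvec 𝕜 k hk)) i • e i - ι (cvec 𝕜 k hk)‖ ≤ 1 / 10 →
      ‖co (P p) i - ((cseq k i : ℝ) : 𝕜)‖ ≤ 11 / 10 := by
    intro k hk i h10
    have h1 := ((norm_co_le _ i).trans (hC.P_le _)).trans (hdist k hk)
    have h2 := ((norm_co_le _ i).trans (hC.P_le _)).trans h10
    rw [map_sub, co_sub] at h1 h2
    have h3 : co (P (ι (cvec 𝕜 k hk))) i = ((cseq k i : ℝ) : 𝕜) := by rw [hC.Pι]; rfl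
    rw [h3] at h2
    have : co (P p) i - ((cseq k i : ℝ) : 𝕜) =
        (co (P p) i - co (P (∑ i ∈ Finset.range n, A (ι (cvec 𝕜 k hk)) i • e i)) i)
        + (co (P (∑ i ∈ Finset.range n, A (ι (cvec 𝕜 k hk)) i • e i)) i
          - ((cseq k i : ℝ) : 𝕜)) := by ring
    rw [this]
    refine (norm_add_le _ _).trans ?_
    linarith
  have hc0 := hn0 n (le_max_left _ _)
  have hc1 := hn1 n (le_trans (le_max_left _ _) (le_max_right _ _))
  have hc2 := hn2 n (le_trans (le_max_right _ _) (le_max_right _ _))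
  have hre : ∀ k (hk : k < 3),
      ‖∑ i ∈ Finset.range n, A (ι (cvec 𝕜 k hk)) i • e i - ι (cvec 𝕜 k hk)‖ ≤ 1 / 10 →
      4 / 3 - 11 / 10 ≤ RCLike.re (co (P p) k) := by
    intro k hk h
    have h1 := hco k hk k h
    have h2 := (abs_le.mp ((RCLike.abs_re_le_norm _).trans h1)).1
    rw [map_sub, RCLike.ofReal_re] at h2
    have h3 : cseq k k = 4 / 3 := by simp [cseq, hk]
    rw [h3] at h2
    linarith
  have hp0 := hre 0 (by norm_num) hc0
  have hp1 := hre 1 (by norm_num) hc1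
  have hp2 := hre 2 (by norm_num) hc2
  have hpt : ∀ i, 3 ≤ i → ‖co (P p) i‖ ≤ 11 / 10 := by
    intro i hi
    have := hco 0 (by norm_num) i hc0
    rw [cseq, if_neg (by omega), RCLike.ofReal_zero, sub_zero] at this
    exact this
  have hrel := relation (P p) 3
  have htail := norm_tail_le (co (P p)) 3 (11 / 10) hpt
  rw [T_three] at htail
  have h5 := (abs_le.mp ((RCLike.abs_re_le_norm _).trans htail)).1
  simp only [Finset.sum_range_succ, Finset.sum_range_zero, w_zero, w_one, w_two,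
    RCLike.ofReal_one, one_mul, zero_add] at hrel
  have h6 := congrArg RCLike.re hrel
  simp only [map_add, map_zero] at h6
  linarith

end Pool.Agent.BasisConst2
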