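import Mathlib
import Pool.Agent.BasisConst2.GoodK
import Pool.Agent.BasisConst2.NoMonoK

/-!
# Direct sums with the hyperplane space
-/

set_option autoImplicit false

open Filter Topology ZeroAtInfty

namespace Pool.Agent.BasisConst2

variable {𝕜 : Type} [RCLike 𝕜]

section unique

variable {X : Type} [NormedAddCommGroup X] [NormedSpace 𝕜 X]

/-- existence of expansions and the basic inequality give uniqueness -/
theorem unique_expansion {f : ℕ → X} {K : ℝ}
    (hex : ∀ x : X, ∃ b : ℕ → 𝕜,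
      Tendsto (fun k : ℕ => ∑ i ∈ Finset.range k, b i • f i) atTop (𝓝 x))
    (hne : ∀ i, f i ≠ 0)
    (hK : ∀ (b : ℕ → 𝕜) (p q : ℕ), p ≤ q →
      ‖∑ i ∈ Finset.range p, b i • f i‖ ≤ K * ‖∑ i ∈ Finset.range q, b i • f i‖) :
    ∀ x : X, ∃! b : ℕ → 𝕜,
      Tendsto (fun k : ℕ => ∑ i ∈ Finset.range k, b i • f i) atTop (𝓝 x) := by
  intro x
  obtain ⟨b, hb⟩ := hex x
  refine ⟨b, hb, ?_⟩
  intro a ha
  have hd : ∀ k, ∑ i ∈ Finset.range k, (a i - b i) • f i =
      ∑ i ∈ Finset.range k, a i • f i - ∑ i ∈ Finset.range k, b i • f i := by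
    intro k
    rw [← Finset.sum_sub_distrib]
    apply Finset.sum_congr rfl
    intro i _
    rw [sub_smul]
  have h0 : Tendsto (fun k : ℕ => ‖∑ i ∈ Finset.range k, (a i - b i) • f i‖) atTop (𝓝 0) := by
    have h1 := (Tendsto.sub ha hb).norm
    simp only [sub_self, norm_zero] at h1
    exact h1.congr fun k => by rw [hd]
  have h2 : ∀ m, ∑ i ∈ Finset.range m, (a i - b i) • f i = 0 := by
    intro m
    rw [← norm_le_zero_iff]
    have h3 : Tendsto (fun k : ℕ => K * ‖∑ i ∈ Finset.range k, (a i - b i) • f i‖) atTop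
        (𝓝 (K * 0)) := h0.const_mul _
    rw [mul_zero] at h3
    refine ge_of_tendsto h3 ?_
    filter_upwards [eventually_ge_atTop m] with k hk
    exact hK _ m k hk
  ext m
  have h4 := h2 (m + 1)
  rw [Finset.sum_range_succ, h2 m, zero_add, smul_eq_zero] at h4
  rcases h4 with h4 | h4
  · exact sub_eq_zero.mp h4
  · exact absurd h4 (hne m)

end unique

variable {Y : Type} [NormedAddCommGroup Y] [NormedSpace 𝕜 Y]

/-- the interleaved sequence -/
noncomputable def inter (y : ℕ → Y) (f : ℕ → E 𝕜) (n : ℕ) : Y × E 𝕜 :=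
  if n % 2 = 0 then (y (n / 2), 0) else (0, f (n / 2))

theorem sum_inter (y : ℕ → Y) (f : ℕ → E 𝕜) (c : ℕ → 𝕜) (n : ℕ) :
    ∑ i ∈ Finset.range n, c i • inter y f i =
      (∑ i ∈ Finset.range ((n + 1) / 2), c (2 * i) • y i,
        ∑ i ∈ Finset.range (n / 2), c (2 * i + 1) • f i) := by
  induction n with
  | zero =>
    simp
    rfl
  | succ n ih =>
    rw [Finset.sum_range_succ, ih, inter]
    rcases Nat.even_or_odd' n with ⟨k, rfl | rfl⟩
    · rw [if_pos (by omega)]
      have e1 : (2 * k + 1) / 2 = k := by omega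
      have e2 : (2 * k + 1 + 1) / 2 = k + 1 := by omega
      have e3 : 2 * k / 2 = k := by omega
      rw [e1, e2, e3, Finset.sum_range_succ, Prod.smul_mk, Prod.mk_add_mk, smul_zero, add_zero]
    · rw [if_neg (by omega)]
      have e1 : (2 * k + 1 + 1) / 2 = k + 1 := by omega
      have e2 : (2 * k + 1 + 1 + 1) / 2 = k + 1 := by omega
      have e3 : (2 * k + 1) / 2 = k := by omega
      rw [e1, e2, e3, Finset.sum_range_succ (n := k) (f := fun i => c (2 * i + 1) • f i),
        Prod.smul_mk, Prod.mk_add_mk, smul_zero, add_zero]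

variable (𝕜) in
/-- If `Y` has a monotone basis, then `Y × E` has bases with constants close to one. -/
theorem good_basis_prod {y : ℕ → Y}
    (hy : ∀ x : Y, ∃! b : ℕ → 𝕜,
      Tendsto (fun k : ℕ => ∑ i ∈ Finset.range k, b i • y i) atTop (𝓝 x))
    (hm : Mono 𝕜 y) (hne : ∀ i, y i ≠ 0) (ε : ℝ) (hε0 : 0 < ε) (hε1 : ε < 1) :
    ∃ f : ℕ → Y × E 𝕜,
      (∀ x : Y × E 𝕜, ∃! b : ℕ → 𝕜,
        Tendsto (fun k : ℕ => ∑ i ∈ Finset.range k, b i • f i) atTop (𝓝 x)) ∧
      ∀ (b : ℕ → 𝕜) (p q : ℕ), p ≤ q →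
        ‖∑ i ∈ Finset.range p, b i • f i‖ ≤
          (1 / (1 - ε)) * ‖∑ i ∈ Finset.range q, b i • f i‖ := by
  obtain ⟨f, hf, hf0, hfK⟩ := good_basis 𝕜 ε hε0 hε1
  have h1ε : 0 < 1 - ε := by linarith
  have hK1 : 1 ≤ 1 / (1 - ε) := by
    rw [le_div_iff₀ h1ε]; linarith
  have hK : ∀ (b : ℕ → 𝕜) (p q : ℕ), p ≤ q →
      ‖∑ i ∈ Finset.range p, b i • inter y f i‖ ≤
        (1 / (1 - ε)) * ‖∑ i ∈ Finset.range q, b i • inter y f i‖ := by
    intro b p q hpq
    rw [sum_inter, sum_inter]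
    have h1 := hm (fun i => b (2 * i)) ((p + 1) / 2) ((q + 1) / 2) (by omega)
    have h2 := hfK (fun i => b (2 * i + 1)) (p / 2) (q / 2) (by omega)
    rw [Prod.norm_mk, Prod.norm_mk]
    apply max_le
    · have h3 := le_max_left ‖∑ i ∈ Finset.range ((q + 1) / 2), b (2 * i) • y i‖
        ‖∑ i ∈ Finset.range (q / 2), b (2 * i + 1) • f i‖
      have h4 : 0 ≤ max ‖∑ i ∈ Finset.range ((q + 1) / 2), b (2 * i) • y i‖
        ‖∑ i ∈ Finset.range (q / 2), b (2 * i + 1) • f i‖ := le_max_of_le_left (norm_nonneg _)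
      nlinarith
    · exact h2.trans (mul_le_mul_of_nonneg_left (le_max_right _ _) (by positivity))
  refine ⟨inter y f, unique_expansion (K := 1 / (1 - ε)) ?_ ?_ hK, hK⟩
  · rintro ⟨u, v⟩
    obtain ⟨a, ha, -⟩ := hy u
    obtain ⟨c, hc⟩ := hf v
    refine ⟨fun n => if n % 2 = 0 then a (n / 2) else c (n / 2), ?_⟩
    have e : ∀ k, ∑ i ∈ Finset.range k, (if i % 2 = 0 then a (i / 2) else c (i / 2)) •
        inter y f i = (∑ i ∈ Finset.range ((k + 1) / 2), a i • y i,
          ∑ i ∈ Finset.range (k / 2), c i • f i) := by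
      intro k
      rw [sum_inter]
      congr 1
      · apply Finset.sum_congr rfl
        intro i _
        rw [if_pos (by omega), show 2 * i / 2 = i by omega]
      · apply Finset.sum_congr rfl
        intro i _
        rw [if_neg (by omega), show (2 * i + 1) / 2 = i by omega]
    simp only [e]
    apply Tendsto.prodMk_nhds
    · have : Tendsto (fun k : ℕ => (k + 1) / 2) atTop atTop := by
        apply tendsto_atTop_atTop.mpr
        intro b
        exact ⟨2 * b, fun k hk => by omega⟩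
      exact ha.comp this
    · have : Tendsto (fun k : ℕ => k / 2) atTop atTop := by
        apply tendsto_atTop_atTop.mpr
        intro b
        exact ⟨2 * b, fun k hk => by omega⟩
      exact hc.comp this
  · intro i hi
    rw [inter] at hi
    split_ifs at hi with h
    · exact hne _ (congrArg Prod.fst hi)
    · exact hf0 _ (congrArg Prod.snd hi)

variable (𝕜 Y) in
theorem comp_prod : Comp 𝕜 (Y × E 𝕜) (LinearMap.snd 𝕜 Y (E 𝕜)) (LinearMap.inr 𝕜 Y (E 𝕜))
    (fun x => ‖x.1‖) where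
  P_le x := norm_snd_le x
  ν_add x u := by
    calc ‖(x + u).1‖ = ‖x.1 + u.1‖ := rfl
      _ ≤ ‖x.1‖ + ‖u.1‖ := norm_add_le _ _
      _ ≤ ‖x‖ + ‖u.1‖ := by
        have := norm_fst_le x
        linarith
  le x C _ h1 h2 := by
    rw [Prod.norm_def]
    exact max_le h1 h2
  Pι v := rfl
  νι v := by
    change ‖(0 : Y)‖ ≤ 0
    rw [norm_zero]

variable (𝕜) in
theorem comp_self : Comp 𝕜 (E 𝕜) LinearMap.id LinearMap.id (fun _ => 0) where
  P_le x := le_rfl
  ν_add x u := by
    have := norm_nonneg x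
    linarith
  le x C _ _ h := h
  Pι v := rfl
  νι v := le_rfl

/-! ### `E` is isomorphic to `c₀` -/

/-- dropping the first coordinate -/
noncomputable def shiftC (x : C₀(ℕ, 𝕜)) : C₀(ℕ, 𝕜) :=
  mkC (fun i => x (i + 1)) ((coord_tendsto x).comp (tendsto_add_atTop_nat 1))

open BasisConst (w w_pos T T_pos w_zero) in
/-- the inverse: prepend the coordinate determined by the relation -/
noncomputable def unshift (y : C₀(ℕ, 𝕜)) : C₀(ℕ, 𝕜) :=
  mkC (fun i => if i = 0 then -∑' j, ((w (j + 1) : ℝ) : 𝕜) * y j else y (i - 1)) (by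
    have h := (coord_tendsto y).comp (tendsto_sub_atTop_nat 1)
    refine h.congr' ?_
    filter_upwards [eventually_ge_atTop 1] with i hi
    rw [if_neg (by omega)]
    rfl)

open BasisConst (w w_pos T T_pos w_zero) in
theorem Phi_unshift (y : C₀(ℕ, 𝕜)) : Phi 𝕜 (unshift y) = 0 := by
  rw [Phi_apply, split_sum (unshift y) 1]
  simp only [Finset.sum_range_one]
  have h1 : (unshift y) 0 = -∑' j, ((w (j + 1) : ℝ) : 𝕜) * y j := rfl
  have h2 : ∀ j, (unshift y) (j + 1) = y j := fun j => rfl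
  simp only [h1, h2, w_zero, RCLike.ofReal_one, one_mul]
  exact neg_add_cancel _

open BasisConst (w w_pos T T_pos w_zero) in
variable (𝕜) in
/-- the linear equivalence `E ≃ c₀` -/
noncomputable def equivC : E 𝕜 ≃ₗ[𝕜] C₀(ℕ, 𝕜) where
  toFun x := shiftC x.1
  map_add' x y := by
    ext i
    rfl
  map_smul' c x := by
    ext i
    rfl
  invFun y := ⟨unshift y, Phi_unshift y⟩
  left_inv x := by
    apply Subtype.ext
    ext i
    rcases Nat.eq_zero_or_pos i with rfl | hi
    · change -∑' j, ((w (j + 1) : ℝ) : 𝕜) * co x (j + 1) = co x 0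
      have h := relation x 1
      simp only [Finset.sum_range_one, w_zero, RCLike.ofReal_one, one_mul] at h
      exact (eq_neg_of_add_eq_zero_left h).symm
    · obtain ⟨j, rfl⟩ : ∃ j, i = j + 1 := ⟨i - 1, by omega⟩
      rfl
  right_inv y := by
    ext i
    rfl

theorem equivC_le (x : E 𝕜) : ‖equivC 𝕜 x‖ ≤ 1 * ‖x‖ := by
  rw [one_mul]
  apply norm_le_of_coord _ (norm_nonneg _)
  intro i
  exact norm_co_le x (i + 1)

variable (𝕜) in
/-- the isomorphism of Banach spaces -/
noncomputable def isoC : E 𝕜 ≃L[𝕜] C₀(ℕ, 𝕜) :=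
  (equivC 𝕜).toContinuousLinearEquivOfContinuous
    ((equivC 𝕜).toLinearMap.mkContinuous 1 equivC_le).continuous

end Pool.Agent.BasisConst2
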