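import Mathlib
import Pool.Agent.BasisConst2.ProdK

/-!
# Every Banach space with a basis is isomorphic to a Banach space with a monotone basis
-/

set_option autoImplicit false

open Filter Topology BoundedContinuousFunction

namespace Pool.Agent.BasisConst2

variable {𝕜 : Type} [RCLike 𝕜] {Y : Type} [NormedAddCommGroup Y] [NormedSpace 𝕜 Y]

variable (𝕜) in
/-- the space of partial sum sequences, with the supremum norm -/
noncomputable def V (e : ℕ → Y) : Submodule 𝕜 (ℕ →ᵇ Y) where
  carrier := {z | z 0 = 0 ∧ (∀ n, z (n + 1) - z n ∈ Submodule.span 𝕜 {e n}) ∧ CauchySeq z}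
  add_mem' := by
    rintro z z' ⟨h1, h2, h3⟩ ⟨h1', h2', h3'⟩
    refine ⟨?_, ?_, ?_⟩
    · rw [BoundedContinuousFunction.add_apply, h1, h1', add_zero]
    · intro n
      have : (z + z') (n + 1) - (z + z') n = (z (n + 1) - z n) + (z' (n + 1) - z' n) := by
        rw [BoundedContinuousFunction.add_apply, BoundedContinuousFunction.add_apply]
        abel
      rw [this]
      exact Submodule.add_mem _ (h2 n) (h2' n)
    · exact h3.add h3'
  zero_mem' := by
    refine ⟨rfl, ?_, ?_⟩
    · intro n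
      have : (0 : ℕ →ᵇ Y) (n + 1) - (0 : ℕ →ᵇ Y) n = 0 := sub_self _
      rw [this]
      exact Submodule.zero_mem _
    · exact cauchySeq_const _
  smul_mem' := by
    rintro c z ⟨h1, h2, h3⟩
    refine ⟨?_, ?_, ?_⟩
    · rw [BoundedContinuousFunction.smul_apply, h1, smul_zero]
    · intro n
      rw [BoundedContinuousFunction.smul_apply, BoundedContinuousFunction.smul_apply, ← smul_sub]
      exact Submodule.smul_mem _ _ (h2 n)
    · exact h3.map (uniformContinuous_const_smul c)

theorem closed_V (e : ℕ → Y) : IsClosed (V 𝕜 e : Set (ℕ →ᵇ Y)) := by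
  have hset : (V 𝕜 e : Set (ℕ →ᵇ Y)) = {z : ℕ →ᵇ Y | z 0 = 0} ∩
      ((⋂ n, {z : ℕ →ᵇ Y | z (n + 1) - z n ∈ Submodule.span 𝕜 {e n}}) ∩
        {z : ℕ →ᵇ Y | CauchySeq z}) := by
    ext z
    simp only [Set.mem_inter_iff, Set.mem_iInter, Set.mem_ofPred_eq]
    rfl
  rw [hset]
  have hev : ∀ n, Continuous (fun z : ℕ →ᵇ Y => z n) := fun n =>
    continuous_eval_const n
  refine IsClosed.inter (isClosed_eq (hev 0) continuous_const) (IsClosed.inter ?_ ?_)
  · apply isClosed_iInter
    intro n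
    have hc : IsClosed (Submodule.span 𝕜 {e n} : Set Y) :=
      Submodule.closed_of_finiteDimensional _
    exact hc.preimage ((hev (n + 1)).sub (hev n))
  · rw [← closure_subset_iff_isClosed]
    intro z hz
    rw [Set.mem_ofPred_eq, Metric.cauchySeq_iff]
    intro ε hε
    rw [Metric.mem_closure_iff] at hz
    obtain ⟨z', hz', hd⟩ := hz (ε / 3) (by positivity)
    rw [Set.mem_ofPred_eq, Metric.cauchySeq_iff] at hz'
    obtain ⟨N, hN⟩ := hz' (ε / 3) (by positivity)
    refine ⟨N, fun m hm n hn => ?_⟩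
    have h1 := BoundedContinuousFunction.dist_coe_le_dist (f := z) (g := z') m
    have h2 := BoundedContinuousFunction.dist_coe_le_dist (f := z) (g := z') n
    rw [dist_comm (z n)] at h2
    have h3 := hN m hm n hn
    calc dist (z m) (z n) ≤ dist (z m) (z' m) + dist (z' m) (z' n) + dist (z' n) (z n) :=
          dist_triangle4 _ _ _ _
      _ < ε := by linarith

theorem complete_V [CompleteSpace Y] (e : ℕ → Y) : CompleteSpace (V 𝕜 e) :=
  (closed_V e).completeSpace_coe

/-- coefficients of an element of `V` -/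
theorem exists_coef {e : ℕ → Y} (z : V 𝕜 e) :
    ∃ c : ℕ → 𝕜, ∀ n, (z : ℕ →ᵇ Y) n = ∑ i ∈ Finset.range n, c i • e i := by
  obtain ⟨z, h1, h2, h3⟩ := z
  choose c hc using fun n => Submodule.mem_span_singleton.mp (h2 n)
  refine ⟨c, fun n => ?_⟩
  change z n = _
  induction n with
  | zero => simpa using h1
  | succ n ih =>
    rw [Finset.sum_range_succ, ← ih, hc]
    abel

section

variable [CompleteSpace Y]

theorem exists_lim {e : ℕ → Y} (z : V 𝕜 e) : ∃ y, Tendsto (z : ℕ →ᵇ Y) atTop (𝓝 y) :=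
  cauchySeq_tendsto_of_complete z.2.2.2

variable (𝕜) in
/-- the limit of the partial sums -/
noncomputable def limV (e : ℕ → Y) : V 𝕜 e →L[𝕜] Y :=
  LinearMap.mkContinuous
    { toFun := fun z => (exists_lim z).choose
      map_add' := by
        intro z z'
        have h1 := (exists_lim z).choose_spec
        have h2 := (exists_lim z').choose_spec
        have h3 := (exists_lim (z + z')).choose_spec
        exact tendsto_nhds_unique h3 (h1.add h2)
      map_smul' := by
        intro c z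
        have h1 := (exists_lim z).choose_spec
        have h3 := (exists_lim (c • z)).choose_spec
        exact tendsto_nhds_unique h3 (h1.const_smul c) }
    1 (by
      intro z
      rw [one_mul]
      have h1 := (exists_lim z).choose_spec
      refine le_of_tendsto h1.norm ?_
      filter_upwards with n
      exact BoundedContinuousFunction.norm_coe_le_norm (z : ℕ →ᵇ Y) n)

theorem limV_spec {e : ℕ → Y} (z : V 𝕜 e) : Tendsto (z : ℕ →ᵇ Y) atTop (𝓝 (limV 𝕜 e z)) :=
  (exists_lim z).choose_spec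

omit [CompleteSpace Y] in
/-- an element of `V` from a convergent expansion -/
theorem exists_V {e : ℕ → Y} {a : ℕ → 𝕜} {y : Y}
    (h : Tendsto (fun n => ∑ i ∈ Finset.range n, a i • e i) atTop (𝓝 y)) :
    ∃ z : V 𝕜 e, ∀ n, (z : ℕ →ᵇ Y) n = ∑ i ∈ Finset.range n, a i • e i := by
  obtain ⟨C, hC⟩ := (Metric.isBounded_range_of_tendsto _ h).exists_norm_le
  refine ⟨⟨BoundedContinuousFunction.ofNormedAddCommGroupDiscrete
    (fun n => ∑ i ∈ Finset.range n, a i • e i) C (fun n => hC _ ⟨n, rfl⟩), ?_, ?_, ?_⟩,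
    fun n => rfl⟩
  · change ∑ i ∈ Finset.range 0, a i • e i = 0
    simp
  · intro n
    change ∑ i ∈ Finset.range (n + 1), a i • e i - ∑ i ∈ Finset.range n, a i • e i ∈ _
    rw [Finset.sum_range_succ, add_sub_cancel_left]
    exact Submodule.smul_mem _ _ (Submodule.mem_span_singleton_self _)
  · exact h.cauchySeq

/-- the isomorphism -/
theorem iso_V {e : ℕ → Y} (he : ∀ x : Y, ∃! a : ℕ → 𝕜,
    Tendsto (fun n => ∑ i ∈ Finset.range n, a i • e i) atTop (𝓝 x)) :
    Nonempty (V 𝕜 e ≃L[𝕜] Y) := by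
  have := complete_V (𝕜 := 𝕜) e
  have hinj : LinearMap.ker (limV 𝕜 e : V 𝕜 e →ₗ[𝕜] Y) = ⊥ := by
    rw [LinearMap.ker_eq_bot']
    intro z hz
    obtain ⟨c, hc⟩ := exists_coef z
    have h1 := limV_spec z
    have hz' : limV 𝕜 e z = 0 := hz
    rw [hz'] at h1
    obtain ⟨a, -, hau⟩ := he 0
    have h2 := hau c (h1.congr hc)
    have h3 := hau (fun _ => 0) (by simp)
    have h4 : c = fun _ => 0 := h2.trans h3.symm
    apply Subtype.ext
    ext n
    rw [hc, h4]
    simp
  have hsurj : LinearMap.range (limV 𝕜 e : V 𝕜 e →ₗ[𝕜] Y) = ⊤ := by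
    rw [LinearMap.range_eq_top]
    intro y
    obtain ⟨a, ha, -⟩ := he y
    obtain ⟨z, hz⟩ := exists_V ha
    refine ⟨z, ?_⟩
    have h1 := limV_spec z
    exact tendsto_nhds_unique (h1.congr hz) ha
  exact ⟨ContinuousLinearEquiv.ofBijective (limV 𝕜 e) hinj hsurj⟩

end

/-- the basis of `V` -/
noncomputable def eV (e : ℕ → Y) (n : ℕ) : V 𝕜 e :=
  ⟨BoundedContinuousFunction.ofNormedAddCommGroupDiscrete (fun k => if n < k then e n else 0)
    ‖e n‖ (fun k => by
      split_ifs
      · exact le_rfl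
      · rw [norm_zero]; exact norm_nonneg _), by
    refine ⟨?_, ?_, ?_⟩
    · change (if n < 0 then e n else 0) = 0
      rw [if_neg (by omega)]
    · intro k
      change (if n < k + 1 then e n else 0) - (if n < k then e n else 0) ∈ _
      rcases lt_trichotomy n k with h | rfl | h
      · rw [if_pos (by omega), if_pos h, sub_self]
        exact Submodule.zero_mem _
      · rw [if_pos (by omega), if_neg (by omega), sub_zero]
        exact Submodule.mem_span_singleton_self _
      · rw [if_neg (by omega), if_neg (by omega), sub_zero]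
        exact Submodule.zero_mem _
    · have : Tendsto (fun k : ℕ => if n < k then e n else 0) atTop (𝓝 (e n)) := by
        refine tendsto_const_nhds.congr' ?_
        filter_upwards [eventually_gt_atTop n] with k hk
        rw [if_pos hk]
      exact this.cauchySeq⟩

theorem eV_apply (e : ℕ → Y) (n k : ℕ) :
    ((eV (𝕜 := 𝕜) e n : V 𝕜 e) : ℕ →ᵇ Y) k = if n < k then e n else 0 := rfl

theorem sum_eV (e : ℕ → Y) (a : ℕ → 𝕜) (n k : ℕ) :
    ((∑ i ∈ Finset.range n, a i • eV e i : V 𝕜 e) : ℕ →ᵇ Y) k =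
      ∑ i ∈ Finset.range (min n k), a i • e i := by
  induction n with
  | zero => simp
  | succ n ih =>
    rw [Finset.sum_range_succ, Submodule.coe_add, BoundedContinuousFunction.add_apply, ih,
      Submodule.coe_smul, BoundedContinuousFunction.smul_apply, eV_apply]
    split_ifs with h
    · rw [min_eq_left (by omega : n ≤ k), min_eq_left (by omega : n + 1 ≤ k),
        Finset.sum_range_succ]
    · rw [min_eq_right (by omega : k ≤ n), min_eq_right (by omega : k ≤ n + 1), smul_zero,
        add_zero]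

theorem mono_eV (e : ℕ → Y) : Mono 𝕜 (eV (𝕜 := 𝕜) e) := by
  intro a m n hmn
  change ‖((∑ i ∈ Finset.range m, a i • eV e i : V 𝕜 e) : ℕ →ᵇ Y)‖ ≤
    ‖((∑ i ∈ Finset.range n, a i • eV e i : V 𝕜 e) : ℕ →ᵇ Y)‖
  rw [BoundedContinuousFunction.norm_le (norm_nonneg _)]
  intro k
  rw [sum_eV]
  have h := BoundedContinuousFunction.norm_coe_le_norm
    ((∑ i ∈ Finset.range n, a i • eV e i : V 𝕜 e) : ℕ →ᵇ Y) (min m k)
  rw [sum_eV] at h
  rw [show min n (min m k) = min m k by omega] at h
  exact h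

theorem expand_eV (e : ℕ → Y) (z : V 𝕜 e) : ∃ a : ℕ → 𝕜,
    Tendsto (fun n => ∑ i ∈ Finset.range n, a i • eV (𝕜 := 𝕜) e i) atTop (𝓝 z) := by
  obtain ⟨c, hc⟩ := exists_coef z
  refine ⟨c, ?_⟩
  rw [Metric.tendsto_atTop]
  intro ε hε
  have hz := z.2.2.2
  rw [Metric.cauchySeq_iff] at hz
  obtain ⟨N, hN⟩ := hz (ε / 2) (by positivity)
  refine ⟨N, fun n hn => ?_⟩
  have : dist (∑ i ∈ Finset.range n, c i • eV (𝕜 := 𝕜) e i) z ≤ ε / 2 := by
    rw [Subtype.dist_eq, BoundedContinuousFunction.dist_le (by positivity)]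
    intro k
    rw [sum_eV, ← hc]
    rcases Nat.lt_or_ge n k with h | h
    · rw [min_eq_left h.le]
      exact (hN n hn k (by omega)).le
    · rw [min_eq_right h, dist_self]
      positivity
  linarith

/-- a basis has non-zero elements -/
theorem basis_ne_zero {e : ℕ → Y} (he : ∀ x : Y, ∃! a : ℕ → 𝕜,
    Tendsto (fun n => ∑ i ∈ Finset.range n, a i • e i) atTop (𝓝 x)) (j : ℕ) : e j ≠ 0 := by
  classical
  intro hj
  obtain ⟨a, ha, hau⟩ := he 0
  have h1 := hau (fun _ => 0) (by simp)
  have h2 := hau (fun i => if i = j then 1 else 0) (by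
    have : ∀ n : ℕ, ∑ i ∈ Finset.range n, (if i = j then (1 : 𝕜) else 0) • e i = 0 := by
      intro n
      apply Finset.sum_eq_zero
      intro i _
      split_ifs with h
      · rw [h, hj, smul_zero]
      · rw [zero_smul]
    simp only [this]
    exact tendsto_const_nhds)
  have h3 := congrFun (h1.trans h2.symm) j
  simp at h3

theorem eV_ne_zero {e : ℕ → Y} (hne : ∀ j, e j ≠ 0) (j : ℕ) : eV (𝕜 := 𝕜) e j ≠ 0 := by
  intro h
  have h1 := eV_apply (𝕜 := 𝕜) e j (j + 1)
  rw [h, if_pos (by omega)] at h1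
  exact hne j h1.symm

theorem basis_eV {e : ℕ → Y} (hne : ∀ j, e j ≠ 0) :
    ∀ z : V 𝕜 e, ∃! a : ℕ → 𝕜,
      Tendsto (fun n => ∑ i ∈ Finset.range n, a i • eV (𝕜 := 𝕜) e i) atTop (𝓝 z) :=
  unique_expansion (K := 1) (expand_eV e) (eV_ne_zero hne) (fun b p q hpq => by
    rw [one_mul]
    exact mono_eV e b p q hpq)

end Pool.Agent.BasisConst2
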